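import Pool.Agent.H87.LX.CompA
import Pool.Agent.H87.ZR.CompR
import Pool.Agent.H20.LX.T2

/-!
Page lx (MP_52e316_nt), row ZXT: few pairs of a form and an integer where the logarithm of the twisted
L-function is large.
-/

set_option autoImplicit false

namespace Pool.Agent.H87.LX

open MeasureTheory Pool.Agent.H27.L1.H34.GM Pool.Agent.H27.L1.H34.GZ Pool.Agent.H27.L1.H34.GU
  Pool.Agent.H27.L1.H34.GA
open Pool.Agent.H27.ZF (Fam T_LSF)
open Pool.Agent.H31.CT (Q3 Tw)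
open Pool.Agent.H47.TZF Pool.Agent.H87.ZF Pool.Agent.H87.TZF
open Pool.Agent.H12.ZR (Rb T_BRB)
open Pool.Agent.H20.LX (Dx hx T_BDX T_NZX T_ZXT)

/-- few forms without Ramanujan's bounds at the small primes -/
theorem fewF {m : ℕ} {e1 cb CR a : ℝ} (hCR : 0 < CR) (hab : a ≤ cb)
    (hR : ∀ (N : ℕ) [NeZero N] (T : ℕ → Finset (ZM m)) (D : Set (V m)), SysZ m N T D →
      ∀ P : ℝ, 1 ≤ P → ∀ (S : Type) [Fintype S] [DecidableEq S] (F : S → Mat m → VN m N → ℂ)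
      (lam : S → ℕ → ℂ) (W : S → ℝ), Fam T D P F lam W →
      (∑ i, (open Classical in if Rb m (lam i) (((N : ℝ) * P ^ m) ^ cb) e1 then 0 else W i)) * P ≤
        CR * ((N : ℝ) * P ^ m) ^ ((m : ℝ) - cb)) :
    FewF m (fun lam Q => Rb m lam (Q ^ cb) e1) a := by
  intro ε hε
  refine ⟨CR, hCR, ?_⟩
  intro N _ T D hS H hH S _ _ F lam W hF
  have hN1 : (1 : ℝ) ≤ N := by exact_mod_cast (NeZero.one_le (n := N))
  have hN0 : (0 : ℝ) < N := by linarith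
  have hH0 : 0 < H := by linarith
  refine (hR N T D hS H hH S F lam W hF).trans ?_
  obtain ⟨Q, hQ⟩ : ∃ Q : ℝ, Q = (N : ℝ) * H ^ m := ⟨_, rfl⟩
  have hQ1 : 1 ≤ Q := by
    rw [hQ]
    calc (1 : ℝ) = 1 * 1 := (one_mul _).symm
      _ ≤ N * H ^ m := mul_le_mul hN1 (one_le_pow₀ hH) zero_le_one (by positivity)
  have hQp : 0 < Q := by linarith
  rw [← hQ, mul_assoc]
  refine mul_le_mul_of_nonneg_left ?_ hCR.le
  have h3 : Q ^ (m : ℝ) = (N : ℝ) ^ m * H ^ (m ^ 2) := by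
    rw [Real.rpow_natCast, hQ, mul_pow, ← pow_mul, sq]
  have h4 : 1 ≤ ((N : ℝ) * H) ^ ε := by
    refine Real.one_le_rpow ?_ hε.le
    calc (1 : ℝ) = 1 * 1 := (one_mul _).symm
      _ ≤ N * H := mul_le_mul hN1 hH zero_le_one (by positivity)
  rw [← h3, sub_eq_add_neg, Real.rpow_add hQp]
  refine mul_le_mul ?_ ?_ (by positivity) (by positivity)
  · exact le_mul_of_one_le_left (by positivity) h4
  · exact Real.rpow_le_rpow_of_exponent_le hQ1 (by linarith)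

/-- few windows with large Dirichlet polynomials -/
theorem fewW (hBDX : T_BDX) {m : ℕ} (hm : 1 ≤ m) {κ c a : ℝ} (hc : 0 < c) (hac : a ≤ 2 * c) :
    FewW m (fun lam Q s => Dx lam Q (Real.log Q) (Q ^ κ) (Q ^ c) s) a := by
  intro B ε hB hε
  obtain ⟨C, hC, h⟩ := hBDX m B ε hm hB hε
  refine ⟨C, hC, ?_⟩
  intro N _ T D hS H hH S _ _ F lam W hF c' lamG hc' ht t0
  have hN1 : (1 : ℝ) ≤ N := by exact_mod_cast (NeZero.one_le (n := N))
  have hN0 : (0 : ℝ) < N := by linarith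
  have hH0 : 0 < H := by linarith
  obtain ⟨Q, hQ⟩ : ∃ Q : ℝ, Q = (N : ℝ) * H ^ m := ⟨_, rfl⟩
  have hQ1 : 1 ≤ Q := by
    rw [hQ]
    calc (1 : ℝ) = 1 * 1 := (one_mul _).symm
      _ ≤ N * H ^ m := mul_le_mul hN1 (one_le_pow₀ hH) zero_le_one (by positivity)
  have hQp : 0 < Q := by linarith
  have h1 := h N T D hS H hH S F lam W hF c' lamG hc' ht t0 (Real.log Q) (Q ^ κ) (Q ^ c)
    (Real.one_le_rpow hQ1 hc.le)
  rw [← hQ] at h1 ⊢
  refine h1.trans ?_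
  have hp2 : (Q ^ c) ^ 2 = Q ^ (2 * c) := by
    rw [← Real.rpow_natCast, ← Real.rpow_mul hQp.le]
    congr 1
    push_cast
    ring
  rw [hp2, div_eq_mul_inv, ← Real.rpow_neg hQp.le, mul_assoc C]
  refine mul_le_mul_of_nonneg_left ?_ (by positivity)
  exact Real.rpow_le_rpow_of_exponent_le hQ1 (by linarith)

theorem pf_ZXT (hEUL : Pool.Agent.H27.ZF.T_EUL) (hLSF : T_LSF) (hBDX : T_BDX) (hBLT : T_BLT)
    (hBRB : T_BRB) (hNZX : T_NZX) : T_ZXT := by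
  classical
  intro m d0 e hm hd0 he
  have hmR : (1 : ℝ) ≤ m := by exact_mod_cast hm
  obtain ⟨d, hd, hd2, hdd⟩ : ∃ d : ℝ, 0 < d ∧ d ≤ 1 / 2 ∧ d ≤ d0 :=
    ⟨min d0 (1 / 2), lt_min hd0 (by norm_num), min_le_right _ _, min_le_left _ _⟩
  obtain ⟨CT, hCT0, hCT⟩ := Pool.Agent.H27.L1.H34.GZ.a_TNZ m hm
  obtain ⟨e1, B, he1, hB, hNZ⟩ := hNZX m d e (max 1 (2 * CT)) hm hd hd2 he (le_max_left _ _)
  obtain ⟨cb, CR, hcb, hCR, hR⟩ := hBRB m e1 hm he1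
  obtain ⟨κ, hκ, hκb, hκ4⟩ : ∃ κ : ℝ, 0 < κ ∧ κ ≤ cb ∧ κ ≤ 1 / (4 * (m : ℝ)) :=
    ⟨min cb (1 / (4 * (m : ℝ))), lt_min hcb (by positivity), min_le_left _ _, min_le_right _ _⟩
  obtain ⟨c, A, Q0, hc, hA, hQ0, hNZ⟩ := hNZ κ hκ hκ4
  obtain ⟨a, ha, hac, hab⟩ : ∃ a : ℝ, 0 < a ∧ a ≤ 2 * c ∧ a ≤ cb :=
    ⟨min (2 * c) cb, lt_min (by linarith) hcb, min_le_left _ _, min_le_right _ _⟩
  refine ⟨a, A, ha, hA, fun ε hε => ?_⟩
  have hLoc : LocA m d0 c (fun lam Q => Rb m lam (Q ^ κ) e1)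
      (fun lam Q s => Dx lam Q (Real.log Q) (Q ^ κ) (Q ^ c) s)
      (fun Q s z => Real.exp (-(A * hx e Q s)) ≤ ‖z‖ ∧ ‖z‖ ≤ Real.exp (A * hx e Q s)) := by
    refine ⟨d, B + 1, Q0, hd, hd2, by linarith, hQ0, ?_⟩
    intro N _ T D hS F lam hF hnz L hL Q t hQQ hRb hDp hLb s0 hs0 hs1
    obtain ⟨q, hq⟩ := hEUL m N T D hS F lam hF.toHecA hnz
    refine hNZ lam q L Q s0.im hQQ hq
      (fun n hn => lam_le hS hF.toHecA hnz hm (hCT T hS.reps) hn) hL.1 ?_ hRb ?_ s0 (by linarith) rfl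
    · intro s hs
      have h1 := hL.2 s hs
      have h2 : (fun n : ℕ => if 1 ≤ n ∧ n.Coprime 1 then lam n * (n : ℂ) ^ (-s) else 0) =
          fun n : ℕ => if 1 ≤ n then lam n * (n : ℂ) ^ (-s) else 0 := by
        funext n
        have h3 : (1 ≤ n ∧ n.Coprime 1) ↔ 1 ≤ n :=
          ⟨fun h => h.1, fun h => ⟨h, Nat.coprime_one_right n⟩⟩
        simp only [h3]
      rw [h2] at h1
      exact h1
    · intro s h1 h2 h3
      have h4 : |s.im - t| ≤ B + 1 := by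
        calc |s.im - t| = |(s.im - s0.im) + (s0.im - t)| := by ring_nf
          _ ≤ |s.im - s0.im| + |s0.im - t| := abs_add_le _ _
          _ ≤ B + 1 := by linarith
      exact ⟨hLb s h1 (by linarith) h4, hDp s (by linarith) (by linarith) h4⟩
  obtain ⟨C, hC, h⟩ := comp_A hEUL hLSF hBLT m d0 c a hm hc ha hac
    (fun lam Q => Rb m lam (Q ^ cb) e1) (fun lam Q => Rb m lam (Q ^ κ) e1) _ _
    (fewF hCR hab hR) (fewW hBDX hm hc hac)
    ⟨1, le_rfl, fun Q hQ c' lam lamG hc' ht h => Pool.Agent.H87.ZR.rb_tw hc' ht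
      (Real.rpow_le_rpow_of_exponent_le hQ hκb) h⟩ hLoc ε hε
  refine ⟨C, hC, ?_⟩
  intro N _ T D hS B0 H U hB0 hH hHU S _ _ F lam W hF c' M _ G lamG hc' hG L hL t0 ht0
  have h1 := h N T D hS B0 H U hB0 hH hHU S F lam W hF c' M G lamG hc' hG L hL t0 ht0
  rw [← mul_assoc C] at h1
  refine le_trans (Finset.sum_le_sum fun i _ => mul_le_mul_of_nonneg_left
    (Nat.cast_le.2 (Finset.card_le_card fun k hk => ?_)) (hF.nn i)) h1
  rw [Finset.mem_filter] at hk ⊢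
  obtain ⟨hk1, s, h2, h3, h4⟩ := hk
  refine ⟨hk1, s, h2, h3, ?_⟩
  rw [not_and_or, not_le, not_le]
  exact h4

end Pool.Agent.H87.LX
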