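import Pool.Agent.H87.ZF.Z1T

/-!
Page lx (MP_52e316_nt): from a local theorem for one form to few exceptional pairs of a form and an integer,
abstract in the conditions for the form and for the window.
-/

set_option autoImplicit false

namespace Pool.Agent.H87.LX

open MeasureTheory Pool.Agent.H27.L1.H34.GM Pool.Agent.H27.L1.H34.GZ Pool.Agent.H27.L1.H34.GU
  Pool.Agent.H27.L1.H34.GA
open Pool.Agent.H27.ZF (Fam T_LSF)
open Pool.Agent.H31.CT (Q3 Tw)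
open Pool.Agent.H47.TZF Pool.Agent.H87.ZF Pool.Agent.H87.TZF

/-- the local theorem for one form at any level: the condition `FB` for the form, the condition `WP` near the
height `t` and a small L-function near the height `t` make the values `L s` good -/
def LocA (m : ℕ) (d0 c : ℝ) (FB : (ℕ → ℂ) → ℝ → Prop) (WP : (ℕ → ℂ) → ℝ → ℂ → Prop)
    (Good : ℝ → ℂ → ℂ → Prop) : Prop :=
  ∃ d B Q0 : ℝ, 0 < d ∧ d ≤ 1 / 2 ∧ 1 ≤ B ∧ 1 ≤ Q0 ∧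
    ∀ (N : ℕ) [NeZero N] (T : ℕ → Finset (ZM m)) (D : Set (V m)), SysZ m N T D →
    ∀ (F : Mat m → VN m N → ℂ) (lam : ℕ → ℂ), CusB m N T F lam → NZ F →
    ∀ L : ℂ → ℂ, IsL m 1 lam L → ∀ Q t : ℝ, Q0 ≤ Q → FB lam Q →
    (∀ s : ℂ, 1 / 2 ≤ s.re → s.re ≤ B → |s.im - t| ≤ B → WP lam Q s) →
    (∀ s : ℂ, 1 / 2 + d / 2 ≤ s.re → s.re ≤ B → |s.im - t| ≤ B → ‖L s‖ ≤ Q ^ c) →
    ∀ s : ℂ, 1 / 2 + d0 ≤ s.re → |s.im - t| ≤ 1 → Good Q s (L s)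

open Classical in
/-- few forms do not satisfy `FB` -/
def FewF (m : ℕ) (FB : (ℕ → ℂ) → ℝ → Prop) (b : ℝ) : Prop := ∀ ε : ℝ, 0 < ε → ∃ C : ℝ, 0 < C ∧
  ∀ (N : ℕ) [NeZero N] (T : ℕ → Finset (ZM m)) (D : Set (V m)), SysZ m N T D →
  ∀ H : ℝ, 1 ≤ H → ∀ (S : Type) [Fintype S] [DecidableEq S]
    (F : S → Mat m → VN m N → ℂ) (lam : S → ℕ → ℂ) (W : S → ℝ), Fam T D H F lam W →
    (∑ i, (if FB (lam i) (N * H ^ m) then 0 else W i)) * H ≤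
      C * (((N : ℝ) * H) ^ ε * ((N : ℝ) ^ m * H ^ (m ^ 2))) * ((N : ℝ) * H ^ m) ^ (-b)

open Classical in
/-- few windows do not satisfy `WP` -/
def FewW (m : ℕ) (WP : (ℕ → ℂ) → ℝ → ℂ → Prop) (b : ℝ) : Prop := ∀ (B ε : ℝ), 1 ≤ B → 0 < ε →
  ∃ C : ℝ, 0 < C ∧
  ∀ (N : ℕ) [NeZero N] (T : ℕ → Finset (ZM m)) (D : Set (V m)), SysZ m N T D →
  ∀ H : ℝ, 1 ≤ H → ∀ (S : Type) [Fintype S] [DecidableEq S]
    (F : S → Mat m → VN m N → ℂ) (lam : S → ℕ → ℂ) (W : S → ℝ), Fam T D H F lam W →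
  ∀ (c : ℕ → ℂ) (lamG : S → ℕ → ℂ), (∀ n, ‖c n‖ ≤ 1) → (∀ i n, 1 ≤ n → lamG i n = c n * lam i n) →
  ∀ t0 : ℝ, ∑ i, W i * (((Wi t0 H).filter (fun k : ℤ => ∃ s : ℂ, 1 / 2 ≤ s.re ∧ s.re ≤ B ∧
      |s.im - k| ≤ B ∧ ¬ WP (lamG i) (N * H ^ m) s)).card : ℝ) ≤
      C * (((N : ℝ) * H) ^ ε * ((N : ℝ) ^ m * H ^ (m ^ 2))) * ((N : ℝ) * H ^ m) ^ (-b)

open Classical in
/-- few pairs of a form and an integer which are not good -/
theorem comp_A (hEUL : Pool.Agent.H27.ZF.T_EUL) (hLSF : T_LSF) (hBLT : T_BLT) (m : ℕ) (d0 c1 a : ℝ)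
    (hm : 1 ≤ m) (hc1 : 0 < c1) (ha : 0 < a) (hac : a ≤ 2 * c1) (FB FB' : (ℕ → ℂ) → ℝ → Prop)
    (WP : (ℕ → ℂ) → ℝ → ℂ → Prop) (Good : ℝ → ℂ → ℂ → Prop)
    (hFB : FewF m FB a) (hWP : FewW m WP a)
    (hFt : ∃ Q1 : ℝ, 1 ≤ Q1 ∧ ∀ Q : ℝ, Q1 ≤ Q → ∀ c lam lamG : ℕ → ℂ, (∀ n, ‖c n‖ ≤ 1) →
      (∀ n, 1 ≤ n → lamG n = c n * lam n) → FB lam Q → FB' lamG Q)
    (hLoc : LocA m d0 c1 FB' WP Good) :
    ∀ ε : ℝ, 0 < ε → ∃ C : ℝ, 0 < C ∧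
  ∀ (N : ℕ) [NeZero N] (T : ℕ → Finset (ZM m)) (D : Set (V m)), SysZ m N T D →
  ∀ B0 H U : ℝ, 1 ≤ B0 → 1 ≤ H → H ≤ U → ∀ (S : Type) [Fintype S] [DecidableEq S]
    (F : S → Mat m → VN m N → ℂ) (lam : S → ℕ → ℂ) (W : S → ℝ), Fam T D H F lam W →
  ∀ (c : ℕ → ℂ) (M : S → ℕ) [∀ i, NeZero (M i)] (G : ∀ i, Mat m → VN m (M i) → ℂ)
    (lamG : S → ℕ → ℂ), (∀ n, ‖c n‖ ≤ 1) → Tw m T D B0 U c lam M G lamG →
  ∀ L : S → ℂ → ℂ, (∀ i, IsL m 1 (lamG i) (L i)) → ∀ t0 : ℝ, H + |t0| ≤ U →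
    ∑ i, W i * (((Wi t0 H).filter (fun k : ℤ => ∃ s : ℂ, 1 / 2 + d0 ≤ s.re ∧ |s.im - k| ≤ 1 ∧
      ¬ Good ((N : ℝ) * H ^ m) s (L i s))).card : ℝ) ≤
      C * (((N : ℝ) * B0 * U) ^ ε * Q3 m N B0 H U) * ((N : ℝ) * H ^ m) ^ (-a) := by
  obtain ⟨d, B, Q2, hd, hd2, hB, hQ2, hLF⟩ := hLoc
  obtain ⟨Q1, hQ1', hFt⟩ := hFt
  obtain ⟨Q0, hQ0, hQ02, hQ01⟩ : ∃ Q0 : ℝ, 1 ≤ Q0 ∧ Q2 ≤ Q0 ∧ Q1 ≤ Q0 :=
    ⟨max Q2 Q1, hQ2.trans (le_max_left _ _), le_max_left _ _, le_max_right _ _⟩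
  intro ε hε
  obtain ⟨CF, hCF, hWS⟩ := wsum hLSF m ε hm hε
  obtain ⟨CS, hCS, hS'⟩ := hFB ε hε
  obtain ⟨CD, hCD, hD'⟩ := hWP B ε hB hε
  obtain ⟨CL, hCL, hL'⟩ := hBLT m (d / 2) B ε hm (by positivity) (by linarith) hB hε
  have hQ00 : 0 < Q0 := by linarith
  refine ⟨3 * CS + CD + CL + 2 * CF * Q0 ^ a, by positivity, ?_⟩
  intro N _ T D hS B0 H U hB0 hH hHU S _ _ F lam W hF c M _ G lamG hc hG L hL t0 ht0
  have hN1 : (1 : ℝ) ≤ N := by exact_mod_cast (NeZero.one_le (n := N))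
  have hN0 : (0 : ℝ) < N := by linarith
  have hH0 : 0 < H := by linarith
  have hU0 : 0 < U := by linarith
  have hB00 : 0 < B0 := by linarith
  have hnz : ∀ i, NZ (F i) := fun i => Pool.Agent.H69.ZN.nz_of_one hS (nU_of_orthn hF.orth i)
  have hl1 : ∀ i, lam i 1 = 1 := fun i => by
    obtain ⟨q, hq⟩ := hEUL m N T D hS (F i) (lam i) (hF.cus i).1.toHecA (hnz i)
    exact hq.one
  have hnG : ∀ i, NZ (G i) := fun i => Pool.Agent.H69.ZN.nz_of_one (hG.sys i).1 (hG.form i).2.2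
  obtain ⟨Q, hQ⟩ : ∃ Q : ℝ, Q = (N : ℝ) * H ^ m := ⟨_, rfl⟩
  have hPm : 1 ≤ H ^ m := one_le_pow₀ hH
  have hQ1 : 1 ≤ Q := by
    rw [hQ]
    calc (1 : ℝ) = 1 * 1 := (one_mul _).symm
      _ ≤ N * H ^ m := mul_le_mul hN1 hPm zero_le_one (by positivity)
  have hQp : 0 < Q := by linarith
  obtain ⟨Y, hY⟩ : ∃ Y : ℝ, Y = ((N : ℝ) * B0 * U) ^ ε * Q3 m N B0 H U := ⟨_, rfl⟩
  have hNP : ((N : ℝ) * H) ^ ε ≤ ((N : ℝ) * B0 * U) ^ ε := by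
    refine Real.rpow_le_rpow (by positivity) ?_ hε.le
    calc (N : ℝ) * H ≤ N * U := mul_le_mul_of_nonneg_left hHU hN0.le
      _ = N * 1 * U := by ring
      _ ≤ N * B0 * U := by gcongr
  have hQ3 : (N : ℝ) ^ m * H ^ (m ^ 2) ≤ Q3 m N B0 H U := by
    unfold Q3
    have h1 : 0 ≤ B0 ^ ((m : ℝ) / 2) * U ^ ((m : ℝ) ^ 2 / 2) := by positivity
    linarith
  have hY1 : ((N : ℝ) * H) ^ ε * ((N : ℝ) ^ m * H ^ (m ^ 2)) ≤ Y := by
    rw [hY]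
    exact mul_le_mul hNP hQ3 (by positivity) (by positivity)
  have hY0 : 0 ≤ Y := le_trans (by positivity) hY1
  rw [← hQ, ← hY]
  rcases le_or_gt Q0 Q with hQQ | hQQ
  · -- large conductor
    have hA1 : 1 ≤ Q ^ c1 := Real.one_le_rpow hQ1 hc1.le
    have eS := hS' N T D hS H hH S F lam W hF
    have eD := hD' N T D hS H hH S F lam W hF c lamG hc hG.tw t0
    have eL := hL' N T D hS B0 H U hB0 hH hHU S F lam W hF c M G lamG hc hG L hL t0 ht0 (Q ^ c1) hA1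
    rw [← hQ] at eS eD
    rw [← hY] at eL
    have hp2 : (Q ^ c1) ^ 2 = Q ^ (2 * c1) := by
      rw [← Real.rpow_natCast, ← Real.rpow_mul hQp.le]
      congr 1
      push_cast
      ring
    rw [hp2] at eL
    have hQa : Q ^ (-(2 * c1)) ≤ Q ^ (-a) := Real.rpow_le_rpow_of_exponent_le hQ1 (by linarith)
    have hdiv : ∀ C : ℝ, 0 ≤ C → C * (((N : ℝ) * H) ^ ε * ((N : ℝ) ^ m * H ^ (m ^ 2))) * Q ^ (-a) ≤
        C * (Y * Q ^ (-a)) := by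
      intro C hC
      rw [mul_assoc C]
      exact mul_le_mul_of_nonneg_left (mul_le_mul_of_nonneg_right hY1 (by positivity)) hC
    have fS := eS.trans (hdiv CS hCS.le)
    have fD := eD.trans (hdiv CD hCD.le)
    have fL : _ ≤ CL * (Y * Q ^ (-a)) := eL.trans (by
      rw [div_eq_mul_inv, ← Real.rpow_neg hQp.le, mul_assoc]
      exact mul_le_mul_of_nonneg_left (mul_le_mul_of_nonneg_left hQa hY0) hCL.le)
    have key : ∀ i, W i * (((Wi t0 H).filter (fun k : ℤ => ∃ s : ℂ, 1 / 2 + d0 ≤ s.re ∧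
        |s.im - k| ≤ 1 ∧ ¬ Good Q s (L i s))).card : ℝ) ≤
        3 * ((if FB (lam i) Q then 0 else W i) * H) +
        W i * (((Wi t0 H).filter (fun k : ℤ => ∃ s : ℂ, 1 / 2 ≤ s.re ∧ s.re ≤ B ∧
          |s.im - k| ≤ B ∧ ¬ WP (lamG i) Q s)).card : ℝ) +
        W i * (((Wi t0 H).filter (fun k : ℤ => ∃ s : ℂ, 1 / 2 + d / 2 ≤ s.re ∧
          s.re ≤ B ∧ |s.im - k| ≤ B ∧ Q ^ c1 < ‖L i s‖)).card : ℝ) := by
      intro i
      have hW := hF.nn i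
      by_cases hSq : FB (lam i) Q
      · rw [if_pos hSq, zero_mul, mul_zero, zero_add, ← mul_add]
        refine mul_le_mul_of_nonneg_left ?_ hW
        rw [← Nat.cast_add]
        refine Nat.cast_le.2 (le_trans (Finset.card_le_card ?_) (Finset.card_union_le _ _))
        intro k hk
        rw [Finset.mem_filter] at hk
        obtain ⟨hk1, s0, hs0, hs1, hs2⟩ := hk
        rw [Finset.mem_union, Finset.mem_filter, Finset.mem_filter]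
        by_contra hcon
        push Not at hcon
        obtain ⟨hcD, hcL⟩ := hcon
        have hcD := hcD hk1
        have hcL := hcL hk1
        have h1 := hLF (M i) T D (hG.sys i).1 (G i) (lamG i) (hG.form i).1 (hnG i) (L i) (hL i) Q k
          (hQ02.trans hQQ) (hFt Q (hQ01.trans hQQ) c (lam i) (lamG i) hc (hG.tw i) hSq)
          hcD hcL s0 hs0 hs1
        exact hs2 h1
      · rw [if_neg hSq]
        have h1 := card_Wi (t0 := t0) hH (fun k : ℤ => ∃ s : ℂ, 1 / 2 + d0 ≤ s.re ∧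
          |s.im - k| ≤ 1 ∧ ¬ Good Q s (L i s))
        have h2 := mul_le_mul_of_nonneg_left h1 hW
        refine h2.trans ?_
        have h3 : 0 ≤ W i * (((Wi t0 H).filter (fun k : ℤ => ∃ s : ℂ, 1 / 2 ≤ s.re ∧
          s.re ≤ B ∧ |s.im - k| ≤ B ∧ ¬ WP (lamG i) Q s)).card : ℝ) :=
          mul_nonneg hW (Nat.cast_nonneg _)
        have h4 : 0 ≤ W i * (((Wi t0 H).filter (fun k : ℤ => ∃ s : ℂ,
          1 / 2 + d / 2 ≤ s.re ∧
          s.re ≤ B ∧ |s.im - k| ≤ B ∧ Q ^ c1 < ‖L i s‖)).card : ℝ) :=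
          mul_nonneg hW (Nat.cast_nonneg _)
        calc W i * (3 * H) = 3 * (W i * H) := by ring
          _ ≤ _ := by linarith
    refine (Finset.sum_le_sum fun i _ => key i).trans ?_
    rw [Finset.sum_add_distrib, Finset.sum_add_distrib, ← Finset.mul_sum, ← Finset.sum_mul]
    have hz : 0 ≤ 2 * CF * Q0 ^ a * (Y * Q ^ (-a)) := by positivity
    have hfin : 3 * (CS * (Y * Q ^ (-a))) + CD * (Y * Q ^ (-a)) + CL * (Y * Q ^ (-a)) ≤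
        (3 * CS + CD + CL + 2 * CF * Q0 ^ a) * Y * Q ^ (-a) := by
      rw [mul_assoc _ Y, add_mul, add_mul, add_mul]
      linarith
    refine le_trans (add_le_add (add_le_add (mul_le_mul_of_nonneg_left fS (by norm_num)) fD) fL) hfin
  · -- small conductor
    have h1 := hWS N T D hS H hH S F lam W hF hl1
    have h3 : ∑ i, W i * (((Wi t0 H).filter (fun k : ℤ => ∃ s : ℂ, 1 / 2 + d0 ≤ s.re ∧
        |s.im - k| ≤ 1 ∧ ¬ Good Q s (L i s))).card : ℝ) ≤ ∑ i, W i * (3 * H) :=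
      Finset.sum_le_sum fun i _ => mul_le_mul_of_nonneg_left (card_Wi hH _) (hF.nn i)
    rw [← Finset.sum_mul] at h3
    have h4 : 1 ≤ Q0 ^ a * Q ^ (-a) := by
      rw [Real.rpow_neg hQp.le, ← div_eq_mul_inv, one_le_div (by positivity)]
      exact Real.rpow_le_rpow hQp.le hQQ.le ha.le
    have h6 : 2 * H * ∑ i, W i ≤ CF * Y := by
      refine h1.trans ?_
      rw [mul_assoc]
      exact mul_le_mul_of_nonneg_left hY1 hCF.le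
    have h7 : (∑ i, W i) * (3 * H) ≤ 2 * (CF * Y) := by
      have h8 : 0 ≤ 2 * H * ∑ i, W i :=
        mul_nonneg (by linarith) (Finset.sum_nonneg fun i _ => hF.nn i)
      calc (∑ i, W i) * (3 * H) = 3 / 2 * (2 * H * ∑ i, W i) := by ring
        _ ≤ 2 * (2 * H * ∑ i, W i) := mul_le_mul_of_nonneg_right (by norm_num) h8
        _ ≤ _ := mul_le_mul_of_nonneg_left h6 (by norm_num)
    refine h3.trans (h7.trans ?_)
    have h9 : 0 ≤ (3 * CS + CD + CL) * (Y * Q ^ (-a)) := by positivity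
    have h10 : 2 * (CF * Y) ≤ 2 * (CF * Y) * (Q0 ^ a * Q ^ (-a)) :=
      le_mul_of_one_le_right (by positivity) h4
    calc 2 * (CF * Y) ≤ (3 * CS + CD + CL) * (Y * Q ^ (-a)) +
          2 * (CF * Y) * (Q0 ^ a * Q ^ (-a)) := by linarith
      _ = _ := by ring

end Pool.Agent.H87.LX
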